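import Pool.Agent.helper68.SF.SpecE

/-!
Module ER of project SF: near periods of the wave.
-/

set_option autoImplicit false

namespace SF

open MeasureTheory
open scoped ContDiff

theorem ER_fd {f : ℝ → ℝ → ℝ → ℝ} (hf : Sm f) (s x y : ℝ) (hy : 0 < y) :
    DifferentiableAt ℝ (fun p : ℝ × ℝ × ℝ => f p.1 p.2.1 p.2.2) (s, x, y) := by
  have ho : IsOpen {p : ℝ × ℝ × ℝ | 0 < p.2.2} :=
    isOpen_lt continuous_const (continuous_snd.comp continuous_snd)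
  have h1 : ContDiffAt ℝ ∞ (fun p : ℝ × ℝ × ℝ => f p.1 p.2.1 p.2.2) (s, x, y) :=
    hf.contDiffAt (ho.mem_nhds hy)
  exact h1.differentiableAt (by simp)

theorem ER_dx {f : ℝ → ℝ → ℝ → ℝ} (hf : Sm f) (s x y : ℝ) (hy : 0 < y) :
    HasDerivAt (fun t => f s t y)
      (fderiv ℝ (fun p : ℝ × ℝ × ℝ => f p.1 p.2.1 p.2.2) (s, x, y) (0, 1, 0)) x := by
  have h1 := (ER_fd hf s x y hy).hasFDerivAt
  have h2 : HasDerivAt (fun t : ℝ => ((s, t, y) : ℝ × ℝ × ℝ)) (0, 1, 0) x :=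
    (hasDerivAt_const x s).prodMk ((hasDerivAt_id x).prodMk (hasDerivAt_const x y))
  exact h1.comp_hasDerivAt x h2

theorem ER_refl (hZ : EZ_stmt) {f : ℝ → ℝ → ℝ → ℝ} (hf : EW f) (s y : ℝ) (hy : 0 < y) :
    1 / y ^ 2 * dX f s 0 (1 / y) = -dX f s 0 y := by
  have hy' : (0 : ℝ) < 1 / y := by positivity
  have h1 := (ER_fd hf.sm s 0 (1 / y) hy').hasFDerivAt
  have hq : HasDerivAt (fun t : ℝ => t ^ 2 + y ^ 2) 0 0 := by
    have := ((hasDerivAt_pow 2 (0 : ℝ)).add_const (y ^ 2))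
    simpa using this
  have hq0 : (0 : ℝ) ^ 2 + y ^ 2 ≠ 0 := by positivity
  have ha : HasDerivAt (fun t : ℝ => t / (t ^ 2 + y ^ 2)) (1 / y ^ 2) 0 := by
    have := (hasDerivAt_id (0 : ℝ)).div hq hq0
    refine this.congr_deriv ?_
    simp
    field_simp
  have hb : HasDerivAt (fun t : ℝ => y / (t ^ 2 + y ^ 2)) 0 0 := by
    have := (hasDerivAt_const (0 : ℝ) y).div hq hq0
    refine this.congr_deriv ?_
    simp
  have hc : HasDerivAt (fun t : ℝ => ((s, t / (t ^ 2 + y ^ 2), y / (t ^ 2 + y ^ 2)) : ℝ × ℝ × ℝ))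
      (0, 1 / y ^ 2, 0) 0 := (hasDerivAt_const _ s).prodMk (ha.prodMk hb)
  have he : ((s, (0 : ℝ) / ((0 : ℝ) ^ 2 + y ^ 2), y / ((0 : ℝ) ^ 2 + y ^ 2)) : ℝ × ℝ × ℝ) =
      (s, 0, 1 / y) := by
    refine Prod.ext rfl (Prod.ext ?_ ?_)
    · simp
    · show y / ((0 : ℝ) ^ 2 + y ^ 2) = 1 / y
      field_simp
      ring
  rw [← he] at h1
  have h2 := h1.comp_hasDerivAt (0 : ℝ) hc
  rw [he] at h2
  have h3 : (fun t : ℝ => f s (t / (t ^ 2 + y ^ 2)) (y / (t ^ 2 + y ^ 2))) =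
      fun t => -f s t y := by
    funext t
    exact (hZ f hf s y hy).2.2.2 t
  have h4 : HasDerivAt (fun t : ℝ => -f s t y)
      (fderiv ℝ (fun p : ℝ × ℝ × ℝ => f p.1 p.2.1 p.2.2) (s, 0, 1 / y) (0, 1 / y ^ 2, 0)) 0 := by
    rw [← h3]
    exact h2
  have h5 := (ER_dx hf.sm s 0 y hy).neg
  have h6 := h4.unique h5
  have h7 : dX f s 0 (1 / y) =
      fderiv ℝ (fun p : ℝ × ℝ × ℝ => f p.1 p.2.1 p.2.2) (s, 0, 1 / y) (0, 1, 0) :=
    (ER_dx hf.sm s 0 (1 / y) hy').deriv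
  have h8 : dX f s 0 y =
      fderiv ℝ (fun p : ℝ × ℝ × ℝ => f p.1 p.2.1 p.2.2) (s, 0, y) (0, 1, 0) :=
    (ER_dx hf.sm s 0 y hy).deriv
  have h9 : ((0, 1 / y ^ 2, 0) : ℝ × ℝ × ℝ) = (1 / y ^ 2) • (0, 1, 0) := by
    simp
  rw [h9, map_smul, smul_eq_mul] at h6
  rw [h7, h8]
  exact h6

theorem ER_sub {f : ℝ → ℝ → ℝ → ℝ} (hf : EW f) (h s y : ℝ) (hy : 0 < y) :
    dX (fun s x y => f (s + h) x y - f s x y) s 0 y = dX f (s + h) 0 y - dX f s 0 y := by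
  have h1 := (ER_dx hf.sm (s + h) 0 y hy).sub (ER_dx hf.sm s 0 y hy)
  have h2 := (ER_dx hf.sm (s + h) 0 y hy).deriv
  have h3 := (ER_dx hf.sm s 0 y hy).deriv
  unfold dX
  rw [h2, h3]
  exact h1.deriv

/-- **ER.** -/
theorem ER (hR : RC_stmt) (hB : EB_stmt) (hW : WE_stmt) (hZ : EZ_stmt) (hC : EWC_stmt) :
    ER_stmt := by
  intro g hg ε T hε
  obtain ⟨C, hC0, hB⟩ := hB
  have hw : EW (ww g) := (hW g hg).1
  obtain ⟨h, hT, hh⟩ := hR (ww g) hw (ε ^ 2 / C) T (by positivity)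
  have hv : EW (fun s x y => ww g (s + h) x y - ww g s x y) := ((hC.2 (ww g) hw) h).1
  have hbig : ∀ s y : ℝ, 1 ≤ y →
      |dX (fun s x y => ww g (s + h) x y - ww g s x y) s 0 y| ≤ ε / y := by
    intro s y hy
    have h1 := hB _ hv s s y hy
    have h2 : C * ∑ j ∈ Finset.range 6,
        En (dS^[j] (fun s x y => ww g (s + h) x y - ww g s x y)) s ≤ ε ^ 2 := by
      calc C * ∑ j ∈ Finset.range 6,
            En (dS^[j] (fun s x y => ww g (s + h) x y - ww g s x y)) s ≤ C * (ε ^ 2 / C) :=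
            mul_le_mul_of_nonneg_left (hh s) hC0.le
        _ = ε ^ 2 := by field_simp
    have h3 := h1.trans h2
    rw [← mul_pow] at h3
    have h4 := abs_le_of_sq_le_sq h3 hε.le
    have hy0 : 0 < y := by linarith
    rw [le_div_iff₀ hy0]
    rwa [abs_mul, abs_of_pos hy0] at h4
  refine ⟨h, hT, fun s y hy => ?_⟩
  rw [← ER_sub hw h s y hy]
  rcases le_or_gt 1 y with h1 | h1
  · exact hbig s y h1
  · have h2 := ER_refl hZ hv s y hy
    have hy1 : 1 ≤ 1 / y := by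
      rw [le_div_iff₀ hy]
      linarith
    have h3 := hbig s (1 / y) hy1
    have h4 : |dX (fun s x y => ww g (s + h) x y - ww g s x y) s 0 y| =
        1 / y ^ 2 * |dX (fun s x y => ww g (s + h) x y - ww g s x y) s 0 (1 / y)| := by
      rw [← abs_neg, ← h2, abs_mul, abs_of_pos (show (0 : ℝ) < 1 / y ^ 2 by positivity)]
    rw [h4]
    calc 1 / y ^ 2 * |dX (fun s x y => ww g (s + h) x y - ww g s x y) s 0 (1 / y)| ≤
          1 / y ^ 2 * (ε / (1 / y)) := mul_le_mul_of_nonneg_left h3 (by positivity)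
      _ = ε / y := by field_simp

end SF
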